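import Pool.Agent.W973.IP.Defs

/-!
# Positive roots of a polynomial relation at infinity
-/

set_option autoImplicit false

namespace Pool.Agent.W493.IP

open Pool.Agent.W973.IP MvPolynomial Filter

/-- A nonzero real polynomial is eventually bounded below in absolute value. -/
theorem ev_lower (q : Polynomial ℝ) (hq : q ≠ 0) :
    ∃ κ > (0 : ℝ), ∃ ρ₀ > (0 : ℝ), ∀ ρ ≥ ρ₀, κ ≤ |q.eval ρ| := by
  by_cases hd : 0 < q.degree
  · have h := (Polynomial.abs_tendsto_atTop q hd).eventually_ge_atTop (1 : ℝ)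
    obtain ⟨a, ha⟩ := Filter.eventually_atTop.1 h
    refine ⟨1, one_pos, max a 1, lt_of_lt_of_le one_pos (le_max_right _ _), fun ρ hρ => ?_⟩
    exact ha ρ (le_trans (le_max_left _ _) hρ)
  · have hd' : q.degree ≤ 0 := not_lt.1 hd
    have h0 := Polynomial.eq_C_of_degree_le_zero hd'
    have hc : q.coeff 0 ≠ 0 := by
      intro h
      apply hq
      rw [h0, h, Polynomial.C_0]
    refine ⟨|q.coeff 0|, abs_pos.2 hc, 1, one_pos, fun ρ _ => ?_⟩
    rw [h0]
    simp

theorem loj3 : S_LOJ3 := by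
  intro Q D hQ hD
  classical
  have hne : Q.support.Nonempty := by
    rw [Finset.nonempty_iff_ne_empty]
    intro h
    exact hQ (MvPolynomial.support_eq_empty.1 h)
  obtain ⟨m₀, hm₀, hmin⟩ := Finset.exists_min_image Q.support (fun m => m 1) hne
  set j₀ := m₀ 1 with hj₀
  -- leading coefficient polynomial
  set q : Polynomial ℝ := ∑ m ∈ Q.support.filter (fun m => m 1 = j₀),
    Polynomial.C (Q.coeff m) * Polynomial.X ^ (m 0) with hq
  have hqc : q.coeff (m₀ 0) = Q.coeff m₀ := by
    rw [hq, Polynomial.finsetSum_coeff]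
    rw [Finset.sum_eq_single m₀]
    · simp
    · intro m hm hmm
      rw [Polynomial.coeff_C_mul_X_pow]
      rw [if_neg]
      intro h
      apply hmm
      rw [Finset.mem_filter] at hm
      ext i
      fin_cases i
      · exact h.symm
      · exact hm.2
    · intro h
      exfalso
      apply h
      rw [Finset.mem_filter]
      exact ⟨hm₀, rfl⟩
  have hq0 : q ≠ 0 := by
    intro h
    rw [h, Polynomial.coeff_zero] at hqc
    exact (MvPolynomial.mem_support_iff.1 hm₀) hqc.symm
  obtain ⟨κ₁, hκ₁, ρ₁, hρ₁, hlow⟩ := ev_lower q hq0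
  set C : ℝ := ∑ m ∈ Q.support, |Q.coeff m| + 1 with hC
  have hCpos : 0 < C := by
    have : 0 ≤ ∑ m ∈ Q.support, |Q.coeff m| := Finset.sum_nonneg fun _ _ => abs_nonneg _
    linarith
  refine ⟨min 1 (κ₁ / C), lt_min one_pos (div_pos hκ₁ hCpos), max 1 ρ₁,
    lt_of_lt_of_le one_pos (le_max_left _ _), ?_⟩
  intro ρ hρ v hv hz
  have hρ1 : 1 ≤ ρ := le_trans (le_max_left _ _) hρ
  have hρ2 : ρ₁ ≤ ρ := le_trans (le_max_right _ _) hρ
  have hpow : 1 ≤ ρ ^ D := one_le_pow₀ hρ1
  rcases le_total 1 v with h1 | h1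
  · calc min 1 (κ₁ / C) ≤ 1 := min_le_left _ _
      _ ≤ v * ρ ^ D := by nlinarith
  · -- main case
    have hexp : aeval ![ρ, v] Q = ∑ m ∈ Q.support, Q.coeff m * (ρ ^ (m 0) * v ^ (m 1)) := by
      rw [MvPolynomial.aeval_def, MvPolynomial.eval₂_eq']
      refine Finset.sum_congr rfl fun m _ => ?_
      simp [Fin.prod_univ_two]
    have hqe : q.eval ρ = ∑ m ∈ Q.support.filter (fun m => m 1 = j₀), Q.coeff m * ρ ^ (m 0) := by
      rw [hq, Polynomial.eval_finset_sum]
      refine Finset.sum_congr rfl fun m _ => ?_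
      simp
    have hsplit : aeval ![ρ, v] Q = v ^ j₀ * (q.eval ρ + v *
        ∑ m ∈ Q.support.filter (fun m => ¬ m 1 = j₀), Q.coeff m * (ρ ^ (m 0) *
          v ^ (m 1 - j₀ - 1))) := by
      rw [hexp, ← Finset.sum_filter_add_sum_filter_not Q.support (fun m => m 1 = j₀), mul_add, hqe,
        Finset.mul_sum, Finset.mul_sum, Finset.mul_sum]
      congr 1
      · refine Finset.sum_congr rfl fun m hm => ?_
        rw [Finset.mem_filter] at hm
        rw [hm.2]; ring
      · refine Finset.sum_congr rfl fun m hm => ?_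
        rw [Finset.mem_filter] at hm
        have hle : j₀ ≤ m 1 := hmin m hm.1
        have hlt : j₀ < m 1 := lt_of_le_of_ne hle (fun h => hm.2 h.symm)
        have he : m 1 = j₀ + 1 + (m 1 - j₀ - 1) := by omega
        have : v ^ (m 1) = v ^ j₀ * v * v ^ (m 1 - j₀ - 1) := by
          conv_lhs => rw [he]
          rw [pow_add, pow_add, pow_one]
        rw [this]; ring
    rw [hz] at hsplit
    have hv0 : v ^ j₀ ≠ 0 := pow_ne_zero _ hv.ne'
    have hzero := (mul_eq_zero.1 hsplit.symm).resolve_left hv0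
    set R := ∑ m ∈ Q.support.filter (fun m => ¬ m 1 = j₀), Q.coeff m * (ρ ^ (m 0) *
          v ^ (m 1 - j₀ - 1)) with hR
    have hRb : |R| ≤ C * ρ ^ D := by
      calc |R| ≤ ∑ m ∈ Q.support.filter (fun m => ¬ m 1 = j₀), |Q.coeff m * (ρ ^ (m 0) *
          v ^ (m 1 - j₀ - 1))| := Finset.abs_sum_le_sum_abs _ _
        _ ≤ ∑ m ∈ Q.support.filter (fun m => ¬ m 1 = j₀), |Q.coeff m| * ρ ^ D := by
            refine Finset.sum_le_sum fun m hm => ?_
            rw [Finset.mem_filter] at hm
            have h0 : m 0 ≤ D := le_trans (MvPolynomial.monomial_le_degreeOf 0 hm.1) hD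
            rw [abs_mul]
            refine mul_le_mul_of_nonneg_left ?_ (abs_nonneg _)
            have ha : 0 ≤ ρ ^ (m 0) := by positivity
            have hb : 0 ≤ v ^ (m 1 - j₀ - 1) := by positivity
            rw [abs_of_nonneg (mul_nonneg ha hb)]
            calc ρ ^ (m 0) * v ^ (m 1 - j₀ - 1) ≤ ρ ^ D * 1 :=
                  mul_le_mul (pow_le_pow_right₀ hρ1 h0) (pow_le_one₀ hv.le h1) hb (by positivity)
              _ = ρ ^ D := mul_one _
        _ ≤ ∑ m ∈ Q.support, |Q.coeff m| * ρ ^ D := by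
            refine Finset.sum_le_sum_of_subset_of_nonneg (Finset.filter_subset _ _) ?_
            intro m _ _
            positivity
        _ = (∑ m ∈ Q.support, |Q.coeff m|) * ρ ^ D := by rw [Finset.sum_mul]
        _ ≤ C * ρ ^ D := by
            refine mul_le_mul_of_nonneg_right ?_ (by positivity)
            rw [hC]; linarith
    have hqv : |q.eval ρ| ≤ v * (C * ρ ^ D) := by
      have : q.eval ρ = -(v * R) := by linarith
      rw [this, abs_neg, abs_mul, abs_of_pos hv]
      exact mul_le_mul_of_nonneg_left hRb hv.le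
    have hk : κ₁ ≤ v * (C * ρ ^ D) := le_trans (hlow ρ hρ2) hqv
    calc min 1 (κ₁ / C) ≤ κ₁ / C := min_le_right _ _
      _ ≤ v * ρ ^ D := by
          rw [div_le_iff₀ hCpos]
          calc κ₁ ≤ v * (C * ρ ^ D) := hk
            _ = v * ρ ^ D * C := by ring

end Pool.Agent.W493.IP
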